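import Pool.Agent.W314.BA.Stm

/-! Project BA (helper314), part SS: there is a system. -/

set_option autoImplicit false

namespace Pool.Agent.W639.BA

open Pool.Agent.W314.BA

theorem main (h1 : LatSysStmt) (h2 : GamGroupStmt) (h3 : CocompStmt) (h4 : FundStmt)
    (h5 : SgMeasStmt) (h6 : SgMulStmt) (h7 : SgNeStmt) : SysStmt := by
  obtain ⟨Γ, hΓ, hneg, hfin⟩ := h2
  have hmem : ∀ γ, γ ∈ Γ ↔ γ ∈ GamSet := by
    intro γ
    rw [← hΓ]
    rfl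
  obtain ⟨R, hR⟩ := h3
  obtain ⟨F, hF1, hF2, hF3⟩ := h4 Γ hfin ⟨R, fun g => by
    obtain ⟨γ, hγ, h⟩ := hR g
    exact ⟨γ, (hmem γ).2 hγ, h⟩⟩
  obtain ⟨γ, hγ, h8⟩ := h7
  exact h1 Γ sg F
    { F_meas := hF1
      F_bdd := hF2
      F_fund := hF3
      fin := hfin
      neg := hneg
      σ_meas := h5.1
      σ_bdd := h5.2
      σ_mul := fun g γ hγ => h6 g γ ((hmem γ).1 hγ)
      nontriv := ⟨γ, (hmem γ).2 hγ, h8⟩ }

end Pool.Agent.W639.BA
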